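import Mathlib

/-!
# Project OW (helper176), part P3 (helper157): continuity theorem for generating functions,
Poisson limit.  `p3` is word for word the statement `S_P3` of `Pool/Agent/N176/OW/Stm3.lean`.
-/

set_option autoImplicit false

namespace Pool.Agent.N157.OW

open Finset Filter Topology

theorem bracket {g : ℕ → ℝ} {μ θ : ℝ} (hg : ∀ k, 0 ≤ g k) (hs : HasSum g μ) (h0 : 0 < θ) (h1 : θ < 1)
    (k : ℕ) : g k ≤ (∑' j, g j * θ ^ j - ∑ l ∈ range k, g l * θ ^ l) / θ ^ k ∧
      (∑' j, g j * θ ^ j - ∑ l ∈ range k, g l * θ ^ l) / θ ^ k ≤ g k + μ * θ := by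
  have hsum : Summable (fun j => g j * θ ^ j) := by
    apply Summable.of_nonneg_of_le (fun j => mul_nonneg (hg j) (pow_nonneg h0.le j)) _ hs.summable
    intro j
    have := pow_le_one₀ (n := j) h0.le h1.le
    have := hg j
    nlinarith
  have e1 := hsum.sum_add_tsum_nat_add k
  have e2 := hsum.sum_add_tsum_nat_add (k + 1)
  rw [sum_range_succ] at e2
  have hk : 0 < θ ^ k := pow_pos h0 k
  have htail0 : 0 ≤ ∑' i, g (i + (k + 1)) * θ ^ (i + (k + 1)) :=
    tsum_nonneg (fun i => mul_nonneg (hg _) (pow_nonneg h0.le _))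
  have hsg : Summable (fun i => g (i + (k + 1))) := (summable_nat_add_iff (k + 1)).2 hs.summable
  have htail1 : ∑' i, g (i + (k + 1)) * θ ^ (i + (k + 1)) ≤ μ * θ ^ (k + 1) := by
    have h2 : ∑' i, g (i + (k + 1)) * θ ^ (i + (k + 1)) ≤ ∑' i, g (i + (k + 1)) * θ ^ (k + 1) := by
      apply Summable.tsum_le_tsum
      · intro i
        apply mul_le_mul_of_nonneg_left _ (hg _)
        exact pow_le_pow_of_le_one h0.le h1.le (by omega)
      · exact (summable_nat_add_iff (k + 1)).2 hsum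
      · exact hsg.mul_right _
    rw [tsum_mul_right] at h2
    have h3 : ∑' i, g (i + (k + 1)) ≤ μ := by
      have e3 := hs.summable.sum_add_tsum_nat_add (k + 1)
      rw [hs.tsum_eq] at e3
      have : 0 ≤ ∑ i ∈ range (k + 1), g i := sum_nonneg (fun i _ => hg i)
      linarith
    have h4 : 0 ≤ θ ^ (k + 1) := pow_nonneg h0.le _
    nlinarith
  constructor
  · rw [le_div_iff₀ hk]
    linarith
  · rw [div_le_iff₀ hk]
    rw [pow_succ] at htail1
    nlinarith

theorem p3 : ∀ (f : ℕ → ℕ → ℝ) (μ lam : ℝ), 0 ≤ lam → (∀ n k, 0 ≤ f n k) →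
  (∀ n, HasSum (f n) μ) →
  (∀ θ : ℝ, 0 ≤ θ → θ ≤ 1 → Tendsto (fun n => ∑' k, f n k * θ ^ k) atTop
    (𝓝 (μ * Real.exp (-(lam * (1 - θ)))))) →
  ∀ k : ℕ, Tendsto (fun n => f n k) atTop (𝓝 (μ * (Real.exp (-lam) * lam ^ k / k.factorial))) := by
  intro f μ lam hlam hf hs hG k
  have hμ : 0 ≤ μ := (hs 0).nonneg (hf 0)
  have hexp : ∀ x : ℝ, HasSum (fun n : ℕ => x ^ n / n.factorial) (Real.exp x) := by
    intro x
    rw [Real.exp_eq_exp_ℝ]
    exact NormedSpace.expSeries_div_hasSum_exp x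
  have hpi0 : ∀ l : ℕ, 0 ≤ μ * (Real.exp (-lam) * lam ^ l / l.factorial) := by
    intro l
    positivity
  have hpi1 : HasSum (fun l : ℕ => μ * (Real.exp (-lam) * lam ^ l / l.factorial)) μ := by
    have h := (hexp lam).mul_left (μ * Real.exp (-lam))
    have e : μ * Real.exp (-lam) * Real.exp lam = μ := by
      rw [mul_assoc, ← Real.exp_add, neg_add_cancel, Real.exp_zero, mul_one]
    rw [e] at h
    have e2 : (fun l : ℕ => μ * (Real.exp (-lam) * lam ^ l / l.factorial)) =
        fun l : ℕ => μ * Real.exp (-lam) * (lam ^ l / l.factorial) := by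
      ext l
      ring
    rw [e2]
    exact h
  have hpi2 : ∀ θ : ℝ, ∑' l : ℕ, (μ * (Real.exp (-lam) * lam ^ l / l.factorial)) * θ ^ l =
      μ * Real.exp (-(lam * (1 - θ))) := by
    intro θ
    have h := (hexp (lam * θ)).mul_left (μ * Real.exp (-lam))
    have e : μ * Real.exp (-lam) * Real.exp (lam * θ) = μ * Real.exp (-(lam * (1 - θ))) := by
      rw [mul_assoc, ← Real.exp_add]
      congr 2
      ring
    rw [e] at h
    rw [← h.tsum_eq]
    congr 1
    ext l
    rw [mul_pow]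
    ring
  induction k using Nat.strong_induction_on with
  | _ k ih =>
    rw [Metric.tendsto_atTop]
    intro ε hε
    obtain ⟨θ, h0, h1, h2⟩ : ∃ θ : ℝ, 0 < θ ∧ θ < 1 ∧ μ * θ < ε / 3 := by
      refine ⟨min (1 / 2) (ε / (6 * (μ + 1))), ?_, ?_, ?_⟩
      · exact lt_min (by norm_num) (by positivity)
      · exact (min_le_left _ _).trans_lt (by norm_num)
      · have h := min_le_right (1 / 2) (ε / (6 * (μ + 1)))
        have h' : μ * (ε / (6 * (μ + 1))) < ε / 3 := by
          rw [← mul_div_assoc, div_lt_div_iff₀ (by positivity) (by norm_num)]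
          nlinarith
        nlinarith
    have hR : Tendsto (fun n => (∑' j, f n j * θ ^ j - ∑ l ∈ range k, f n l * θ ^ l) / θ ^ k) atTop
        (𝓝 ((∑' j : ℕ, (μ * (Real.exp (-lam) * lam ^ j / j.factorial)) * θ ^ j -
          ∑ l ∈ range k, (μ * (Real.exp (-lam) * lam ^ l / l.factorial)) * θ ^ l) / θ ^ k)) := by
      rw [hpi2 θ]
      apply Tendsto.div_const
      apply Tendsto.sub (hG θ h0.le h1.le)
      apply tendsto_finsetSum
      intro l hl
      exact (ih l (mem_range.1 hl)).mul_const _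
    rw [Metric.tendsto_atTop] at hR
    obtain ⟨N, hN⟩ := hR (ε / 3) (by positivity)
    refine ⟨N, fun n hn => ?_⟩
    have a1 := hN n hn
    have a2 := bracket (hf n) (hs n) h0 h1 k
    have a3 := bracket hpi0 hpi1 h0 h1 k
    rw [Real.dist_eq, abs_lt] at a1 ⊢
    constructor <;> linarith [a1.1, a1.2, a2.1, a2.2, a3.1, a3.2]

end Pool.Agent.N157.OW
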